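import Pool.Agent.W785.EN.Stms

set_option autoImplicit false

open Set Filter Topology
open scoped ContDiff NNReal

namespace Pool.Agent.W646.EN

open Pool.Agent.W785.EN

/-- the phase space -/
abbrev V6 : Type := ℝ × ℝ × ℝ × ℝ × ℝ × ℝ

/-- the vector field -/
noncomputable def vF (c : ℝ) (p : V6) : V6 :=
  (p.2.1, -(p.2.2.2.1 * Real.sin p.1 + p.2.2.1 * Real.cos p.1) / 2, c * Real.cos p.1 ^ 2,
    c * (Real.sin p.1 * Real.cos p.1), Real.cos p.1, Real.sin p.1)

theorem vF_contDiff (c : ℝ) : ContDiff ℝ 1 (vF c) := by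
  unfold vF
  fun_prop

theorem vF_lip (c R : ℝ) : ∃ K : ℝ≥0, LipschitzOnWith K (vF c) (Metric.closedBall 0 R) := by
  have h1 : Continuous (fderiv ℝ (vF c)) := (vF_contDiff c).continuous_fderiv one_ne_zero
  obtain ⟨C, hC⟩ := (isCompact_closedBall (0 : V6) R).exists_bound_of_continuousOn
    h1.continuousOn
  refine ⟨Real.toNNReal C, Convex.lipschitzOnWith_of_nnnorm_fderiv_le (𝕜 := ℝ)
    (fun x _ => ((vF_contDiff c).differentiable one_ne_zero) x) (fun x hx => ?_)
    (convex_closedBall 0 R)⟩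
  rw [← NNReal.coe_le_coe, coe_nnnorm]
  exact (hC x hx).trans (Real.le_coe_toNNReal C)

theorem main : S_sym := by
  intro c μ S φ k W Z x y hS h
  let v : ℝ → V6 := fun s => (φ s, k s, W s, Z s, x s, y s)
  let w : ℝ → V6 := fun s => (-φ (-s), k (-s), -W (-s), Z (-s), -x (-s), y (-s))
  have hv : ∀ s, |s| ≤ S → HasDerivAt v (vF c (v s)) s := fun s hs =>
    (h.dφ s hs).prodMk ((h.dk s hs).prodMk ((h.dW s hs).prodMk ((h.dZ s hs).prodMk
      ((h.dx s hs).prodMk (h.dy s hs)))))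
  have hneg : ∀ s : ℝ, HasDerivAt (fun s : ℝ => -s) (-1) s := fun s => (hasDerivAt_id s).neg
  have hw : ∀ s, |s| ≤ S → HasDerivAt w (vF c (w s)) s := by
    intro s hs
    have hs' : |-s| ≤ S := by rwa [abs_neg]
    have e1 := ((h.dφ (-s) hs').comp s (hneg s)).neg
    have e2 := (h.dk (-s) hs').comp s (hneg s)
    have e3 := ((h.dW (-s) hs').comp s (hneg s)).neg
    have e4 := (h.dZ (-s) hs').comp s (hneg s)
    have e5 := ((h.dx (-s) hs').comp s (hneg s)).neg
    have e6 := (h.dy (-s) hs').comp s (hneg s)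
    have e := e1.prodMk (e2.prodMk (e3.prodMk (e4.prodMk (e5.prodMk e6))))
    refine e.congr_deriv ?_
    simp only [vF, w, Real.sin_neg, Real.cos_neg, Prod.mk.injEq]
    refine ⟨by ring, by ring, by ring, by ring, by ring, by ring⟩
  have hab : ∀ s ∈ Icc (-S) S, |s| ≤ S := fun s hs => abs_le.2 ⟨hs.1, hs.2⟩
  have hvc : ContinuousOn v (Icc (-S) S) := fun s hs =>
    (hv s (hab s hs)).continuousAt.continuousWithinAt
  have hwc : ContinuousOn w (Icc (-S) S) := fun s hs =>
    (hw s (hab s hs)).continuousAt.continuousWithinAt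
  obtain ⟨R1, hR1⟩ := isCompact_Icc.exists_bound_of_continuousOn hvc
  obtain ⟨R2, hR2⟩ := isCompact_Icc.exists_bound_of_continuousOn hwc
  obtain ⟨K, hK⟩ := vF_lip c (max R1 R2)
  have heq : EqOn v w (Icc (-S) S) := by
    refine ODE_solution_unique_of_mem_Icc (v := fun _ => vF c)
      (s := fun _ => Metric.closedBall 0 (max R1 R2)) (K := K) (t₀ := 0)
      (fun t _ => hK) ⟨by linarith, hS⟩ hvc (fun t ht => hv t (hab t (Ioo_subset_Icc_self ht)))
      (fun t ht => ?_) hwc (fun t ht => hw t (hab t (Ioo_subset_Icc_self ht)))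
      (fun t ht => ?_) ?_
    · rw [mem_closedBall_zero_iff]
      exact (hR1 t (Ioo_subset_Icc_self ht)).trans (le_max_left _ _)
    · rw [mem_closedBall_zero_iff]
      exact (hR2 t (Ioo_subset_Icc_self ht)).trans (le_max_right _ _)
    · simp only [v, w, neg_zero, h.φ0, h.k0, h.W0, h.Z0, h.x0, h.y0]
  intro s hs
  have hs' : |-s| ≤ S := by rwa [abs_neg]
  have h1 := heq (x := -s) (abs_le.1 hs')
  simp only [v, w, neg_neg, Prod.mk.injEq] at h1
  exact h1

end Pool.Agent.W646.EN
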